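import Pool.Agent.U190.AI.Span
import Pool.Agent.R932.OP.Irr1

/-!
# Lattices whose reductions are irreducible for all subgroups of small index: the group ring maps onto
the matrix algebra
-/

set_option autoImplicit false
set_option linter.unusedSectionVars false

open Matrix Polynomial Filter Topology NumberField IsDedekindDomain
open Pool.Agent.Y142.ZO Pool.Agent.Y142.ZI
open Pool.Agent.Y142.ZS (NiceP)

namespace Pool.Agent.U190.AI

open Pool.Agent.R932 Pool.Agent.R932.OP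

/-- For every subgroup `U` of index at most `d` the matrices `β σ`, `σ ∈ U`, span all matrices over
`ℤ_ℓ`. -/
def Spans (ℓ d : ℕ) [Fact ℓ.Prime] {N : ℕ} {G : Type} [Group G]
    (β : G →* Matrix (Fin N) (Fin N) ℤ_[ℓ]) : Prop :=
  ∀ U : Subgroup G, U.index ≠ 0 → U.index ≤ d → Submodule.span ℤ_[ℓ] (β '' (U : Set G)) = ⊤

/-- the fixed vectors of a power of a matrix with separable characteristic polynomial and the
eigenvalue one -/
theorem fixed_line {k : Type*} [Field k] {N : ℕ} (A : Matrix (Fin N) (Fin N) k)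
    (hs : A.charpoly.Separable) (h1 : A.charpoly.eval 1 = 0) (n : ℕ)
    (hstab : ∀ W : Submodule k (Fin N → k), (∀ w ∈ W, A ^ n *ᵥ w ∈ W) → ∀ w ∈ W, A *ᵥ w ∈ W) :
    ∃ e : Fin N → k, e ≠ 0 ∧ A ^ n *ᵥ e = e ∧ ∀ v, A ^ n *ᵥ v = v → ∃ c : k, v = c • e := by
  have hdet : ((1 : Matrix (Fin N) (Fin N) k) - A).det = 0 := by
    have h2 := Matrix.eval_charpoly A 1
    rw [h1] at h2
    rw [h2]
    congr 1
  obtain ⟨e, he, he1⟩ := Matrix.exists_mulVec_eq_zero_iff.2 hdet
  have heA : A *ᵥ e = e := by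
    rw [sub_mulVec, one_mulVec, sub_eq_zero] at he1
    exact he1.symm
  have hpow : ∀ m : ℕ, A ^ m *ᵥ e = e := by
    intro m
    induction m with
    | zero => rw [pow_zero, one_mulVec]
    | succ m ih => rw [pow_succ, ← mulVec_mulVec, heA, ih]
  have hline : ∀ v, A *ᵥ v = v → ∃ c : k, v = c • e := by
    intro v hv
    have h2 : Module.finrank k (Module.End.eigenspace (Matrix.toLin' A) 1) ≤ 1 := by
      refine (LinearMap.finrank_eigenspace_le _ _).trans ?_
      rw [Matrix.charpoly_toLin']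
      exact rootMultiplicity_le_one_of_separable hs 1
    obtain ⟨w, hw⟩ := finrank_le_one_iff.1 h2
    have hmem : ∀ x : Fin N → k, A *ᵥ x = x →
        x ∈ Module.End.eigenspace (Matrix.toLin' A) 1 := by
      intro x hx
      rw [Module.End.mem_eigenspace_iff, Matrix.toLin'_apply, one_smul]
      exact hx
    obtain ⟨a, ha⟩ := hw ⟨e, hmem e heA⟩
    obtain ⟨b, hb⟩ := hw ⟨v, hmem v hv⟩
    have ha' : a • (w : Fin N → k) = e := congrArg Subtype.val ha
    have hb' : b • (w : Fin N → k) = v := congrArg Subtype.val hb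
    have ha0 : a ≠ 0 := by
      rintro rfl
      apply he
      rw [← ha', zero_smul]
    refine ⟨b * a⁻¹, ?_⟩
    rw [← ha', ← hb', smul_smul, mul_assoc, inv_mul_cancel₀ ha0, mul_one]
  have hscal : ∀ v, A ^ n *ᵥ v = v → ∃ c : k, A *ᵥ v = c • v := by
    intro v hv
    have h2 := hstab (Submodule.span k {v}) (by
      intro w hw
      obtain ⟨a, rfl⟩ := Submodule.mem_span_singleton.1 hw
      rw [mulVec_smul, hv]
      exact Submodule.smul_mem _ _ (Submodule.mem_span_singleton_self v)) v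
      (Submodule.mem_span_singleton_self v)
    obtain ⟨c, hc⟩ := Submodule.mem_span_singleton.1 h2
    exact ⟨c, hc.symm⟩
  refine ⟨e, he, hpow n, fun v hv => ?_⟩
  obtain ⟨c, hc⟩ := hscal v hv
  obtain ⟨c', hc'⟩ := hscal (v + e) (by rw [mulVec_add, hv, hpow])
  rw [mulVec_add, hc, heA] at hc'
  have h2 : (c - c') • v = (c' - 1) • e := by
    have h3 : c • v + e - (c' • v + e) = c' • (v + e) - (c' • v + e) := by rw [hc']
    rw [smul_add] at h3
    have h4 : (c - c') • v = c • v + e - (c' • v + e) := by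
      rw [sub_smul]
      abel
    have h5 : (c' - 1) • e = c' • v + c' • e - (c' • v + e) := by
      rw [sub_smul, one_smul]
      abel
    rw [h4, h5, h3]
  by_cases hc1 : c' = 1
  · rw [hc1, sub_self, zero_smul] at h2
    rcases smul_eq_zero.1 h2 with h3 | h3
    · apply hline
      rw [hc, sub_eq_zero.1 h3, one_smul]
    · exact ⟨0, by rw [h3, zero_smul]⟩
  · have hc2 : c - c' ≠ 0 := by
      intro h3
      rw [h3, zero_smul] at h2
      rcases smul_eq_zero.1 h2.symm with h4 | h4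
      · exact hc1 (sub_eq_zero.1 h4)
      · exact he h4
    refine ⟨(c - c')⁻¹ * (c' - 1), ?_⟩
    rw [← smul_smul, ← h2, smul_smul, inv_mul_cancel₀ hc2, one_smul]

section
variable {K : Type} [Field K] [NumberField K] {N : ℕ} {G : Type} [Group G] {s : GK K →* G}
  {S : Set (HeightOneSpectrum (𝓞 K))} {P : HeightOneSpectrum (𝓞 K) → ℚ[X]}

/-- irreducible reductions span, if there is a place with separable generic Frobenius polynomial and
the root one -/
theorem spans_of_irr {v : HeightOneSpectrum (𝓞 K)} {Q : ℚ[X]} (hv : NicePlace S P v Q) (d : ℕ) :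
    ∃ b : ℕ, ∀ ℓ : ℕ, b < ℓ → ∀ _ : Fact ℓ.Prime,
    ∀ (β : G →* Matrix (Fin N) (Fin N) ℤ_[ℓ]) (B : Matrix (Fin N) (Fin N) ℤ_[ℓ]),
      IntegralSys K N ℓ s β B S P → IrrMod ℓ d β → Spans ℓ d β := by
  obtain ⟨hvS, hm, hs, hd⟩ := niceP_of_nicePlace hv
  obtain ⟨b₁, hb₁⟩ := stable_mod hm hs hd d.factorial (Nat.factorial_pos d)
  obtain ⟨b₂, hb₂⟩ := sep_mod hs
  refine ⟨max (max b₁ b₂) (Ideal.absNorm v.asIdeal), fun ℓ hℓ hp β B hsys hirr => ?_⟩
  simp only [max_lt_iff] at hℓ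
  obtain ⟨τ, hτ⟩ := Pool.Agent.W401.Frob.exists_frob v
  obtain ⟨-, -, -, -, h5⟩ := hsys
  have e : (genM ℓ (β (s τ⁻¹))).charpoly = (P v).map (algebraMap ℚ ℚ_[ℓ]) := by
    rw [genM, ← h5 v hvS (not_mem_of_lt v hp.out hℓ.2) τ hτ, ← Matrix.charpoly_map]
  have hsep := hb₂ ℓ hℓ.1.2 hp N _ e
  have e2 : (redM ℓ (β (s τ⁻¹))).charpoly =
      (β (s τ⁻¹)).charpoly.map (PadicInt.toZMod : ℤ_[ℓ] →+* ZMod ℓ) := by
    rw [redM, ← Matrix.charpoly_map]
  have hroot0 : (β (s τ⁻¹)).charpoly.eval 1 = 0 := by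
    have h6 : ((P v).map (algebraMap ℚ ℚ_[ℓ])).eval 1 = 0 := by
      rw [hv.2.1, Polynomial.map_mul, eval_mul]
      simp
    rw [← e, genM, Matrix.charpoly_map, eval_one_map] at h6
    exact (FaithfulSMul.algebraMap_injective ℤ_[ℓ] ℚ_[ℓ]) (by rw [h6, map_zero])
  have hroot : (redM ℓ (β (s τ⁻¹))).charpoly.eval 1 = 0 := by
    rw [e2, eval_one_map, hroot0, map_zero]
  obtain ⟨x, hx0, hx1, hx2⟩ := fixed_line _ hsep hroot d.factorial (hb₁ ℓ hℓ.1.1 hp N _ e)
  intro U hU0 hUd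
  obtain ⟨n, hn, hnd, hnU⟩ := Subgroup.exists_pow_mem_of_index_ne_zero hU0 (s τ⁻¹)
  obtain ⟨j, hj⟩ := Nat.dvd_factorial hn (hnd.trans hUd)
  have hgU : (s τ⁻¹) ^ d.factorial ∈ U := by
    rw [hj, pow_mul]
    exact U.pow_mem hnU j
  let f : G →* Matrix (Fin N) (Fin N) (ZMod ℓ) :=
    ((PadicInt.toZMod : ℤ_[ℓ] →+* ZMod ℓ).mapMatrix : Matrix (Fin N) (Fin N) ℤ_[ℓ] →+*
      Matrix (Fin N) (Fin N) (ZMod ℓ)).toMonoidHom.comp β
  have hf : ∀ g, f g = redM ℓ (β g) := fun _ => rfl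
  have hspan := span_eq_top (U.toSubmonoid.map f) (g := f ((s τ⁻¹) ^ d.factorial)) (by
      intro W hW
      refine hirr U W hU0 hUd fun σ hσ w hw => ?_
      have h6 := hW (f σ) ⟨σ, hσ, rfl⟩ w hw
      rwa [hf] at h6) ⟨_, hgU, rfl⟩ hx0 (by rw [hf, map_pow, redM_pow, hx1])
      (by
        intro v hv
        apply hx2
        rwa [hf, map_pow, redM_pow] at hv)
  refine span_lift ℓ _ ?_
  rw [Set.image_image]
  rw [← hspan]
  rfl

end

end Pool.Agent.U190.AI
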