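import Pool.Agent.U190.AI.Irr
import Pool.Agent.R932.OP.OrthA

/-!
# Lattices with full Lie algebra at one prime: group rings at 100 percent of the primes
-/

set_option autoImplicit false
set_option linter.unusedSectionVars false

open Matrix Polynomial Filter Topology NumberField IsDedekindDomain
open Pool.Agent.Y142.ZO Pool.Agent.Y142.ZI

namespace Pool.Agent.U190.AI

open Pool.Agent.R932 Pool.Agent.R932.OP

theorem dens_bdd {A : Set ℕ} {b : ℕ} (hA : ∀ ℓ ∈ A, ℓ ≤ b) : Y142.ZI.DensityZero A := by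
  have h1 : Tendsto (fun n : ℕ => ((b + 1 : ℕ) : ℝ) / (Nat.primeCounting n : ℝ)) atTop (𝓝 0) := by
    refine Tendsto.div_atTop tendsto_const_nhds ?_
    exact tendsto_natCast_atTop_atTop.comp Nat.tendsto_primeCounting
  refine squeeze_zero (fun n => by positivity) (fun n => ?_) h1
  apply div_le_div_of_nonneg_right _ (Nat.cast_nonneg _)
  have h2 : Nat.card {ℓ : ℕ // ℓ ≤ n ∧ ℓ ∈ A} ≤ Nat.card (Fin (b + 1)) :=
    Nat.card_le_card_of_injective (fun x => (⟨x.1, Nat.lt_succ_of_le (hA _ x.2.2)⟩ : Fin (b + 1)))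
      (fun x y h => by
        apply Subtype.ext
        exact congrArg (fun z : Fin (b + 1) => z.1) h)
  rw [Nat.card_fin] at h2
  exact_mod_cast h2

/-- **group rings, open image and Tate classes at 100 percent of the primes** -/
theorem full_one (K : Type) [Field K] [NumberField K] (G : Type) [Group G]
    (s : GK K →* G) (N : ℕ) (hN : Odd N) (hN5 : 5 ≤ N)
    (S : Set (HeightOneSpectrum (𝓞 K))) (hS : S.Finite) (P : HeightOneSpectrum (𝓞 K) → ℚ[X])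
    (β : ∀ (ℓ : ℕ) [Fact ℓ.Prime], G →* Matrix (Fin N) (Fin N) ℤ_[ℓ])
    (B : ∀ (ℓ : ℕ) [Fact ℓ.Prime], Matrix (Fin N) (Fin N) ℤ_[ℓ])
    (hsys : ∀ (ℓ : ℕ) [Fact ℓ.Prime], IntegralSys K N ℓ s (β ℓ) (B ℓ) S P)
    (hB : ∃ b : ℕ, ∀ (ℓ : ℕ) [Fact ℓ.Prime], b < ℓ → IsUnit (B ℓ).det)
    (ℓ₀ : ℕ) [hp₀ : Fact ℓ₀.Prime] (hℓ₀ : ¬ ℓ₀ ∣ N - 1)
    (hfull : FullLie ℓ₀ (genRep ℓ₀ ((β ℓ₀).comp s)) (genM ℓ₀ (B ℓ₀))) (d : ℕ) :
    Y142.ZI.DensityZero {ℓ | ∃ _ : Fact ℓ.Prime, ¬ (Spans ℓ d (β ℓ) ∧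
      OpenImage ℓ (genRep ℓ ((β ℓ).comp s)) (genM ℓ (B ℓ)) ∧
      ∀ U : Subgroup (GK K), IsOpen (U : Set (GK K)) → ∀ w : Fin N → ℚ_[ℓ],
        (∀ σ ∈ U, genM ℓ (β ℓ (s σ)) *ᵥ w = w) → w = 0)} := by
  obtain ⟨m, hm, rfl⟩ : ∃ m, 0 < m ∧ N = 2 * m + 3 := by
    obtain ⟨k, hk⟩ := hN
    exact ⟨k - 1, by omega, by omega⟩
  have hdvd : ¬ ℓ₀ ∣ 2 * (m + 1) := by
    rw [show 2 * m + 3 - 1 = 2 * (m + 1) by omega] at hℓ₀
    exact hℓ₀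
  have hℓ2 : ℓ₀ ≠ 2 := by
    rintro rfl
    exact hdvd ⟨m + 1, rfl⟩
  have hALG : Y142.ZO.S_ALG := Y142.ZO.alg_main
  have hISO : Y142.ZO.S_ISO := Y337.ZO.iso_t
  have hLINE : Y142.ZO.S_LINE := Y337.ZO.line_t
  have hTAN : Y142.ZO.S_TAN := Y708.ZO.t
  have hLOG : Y142.ZO.S_LOG := Y497.ZO.log
  have hEXP : Y142.ZO.S_EXP := Y497.ZO.exp
  have hPOW : Y142.ZO.S_POW := Y497.ZO.pow
  have hSPEC : Y142.ZO.S_SPEC := Y96.ZO.t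
  have hAPP : Y142.ZO.S_APP := Y815.ZO.t Y337.ZO.det_t Y337.ZO.qz_t hLOG
  have hFROB : Y142.ZO.S_FROB := Y405.ZO.t
  have hBAD : Y142.ZO.S_BAD := Y458.ZO.bad hISO hLINE
  have hVAL : Y142.ZO.S_VAL := Y405.ZO.t1
  have hVAL2 : Y142.ZO.S_VAL2 := Y405.ZO.t2
  have hDENS : Y142.ZO.S_DENS := Y394.ZO.t1
  have hINF : Y142.ZO.S_INF := Y394.ZO.t2
  have hINT : Y142.ZI.S_INT := Y484.ZI.t1
  have hRES : Y142.ZI.S_RES := Y484.ZI.t2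
  have hCOMP : Y142.ZI.S_COMP := Y547.ZI.t2
  have hCHEB : Y142.ZI.S_CHEB := Y726.ZI.t1
  have hPOS : Y142.ZI.S_POS := Y726.ZI.t2 hCHEB
  have hDENS2 : Y142.ZI.S_DENS2 := Y681.ZI.t hCHEB
  have hMULTI : Y142.ZI.S_MULTI := Y537.ZI.t
  have hIRR : Y142.ZI.S_IRR := Y971.ZI.t
  have hOPEN : Y142.ZI.S_OPEN := Y884.ZI.t
  have hCHAR : Y142.ZI.S_CHAR := Y949.ZI.t
  have hBADRED : Y142.ZI.S_BADRED := Y379.ZI.t
  have hTYPS : Y142.ZI.S_TYPS := typs clq hCOMP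
  have hTYPT : Y142.ZI.S_TYPT := typt clq hCOMP
  have hTYPU : Y142.ZI.S_TYPU := Y405.ZI.t clq hCOMP
  have hsys' : ∀ (ℓ : ℕ) [Fact ℓ.Prime], Y142.ZO.Orthogonal K (2 * m + 3) ℓ
      (genRep ℓ ((β ℓ).comp s)) (genM ℓ (B ℓ)) S P :=
    fun ℓ _ => orthogonal_of (hsys ℓ)
  have h1 := irr_mod_one hALG hISO hLINE hTAN hLOG hEXP hPOW hSPEC hAPP hFROB hBAD
    hVAL hVAL2 hDENS hINF hBADRED hPOS hIRR hINT hDENS2 hMULTI hCHAR gen hRES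
    unr R499.OP.form1 R499.OP.form2 typc hTYPS hTYPT hTYPU
    typx nt hm hS β B hsys hB ℓ₀ hdvd hfull d
  have h2 := orth_one ⟨m + 1, by ring⟩ (by omega) hS
    (fun ℓ _ => genRep ℓ ((β ℓ).comp s)) (fun ℓ _ => genM ℓ (B ℓ)) hsys' ℓ₀ hℓ₀ hfull
  obtain ⟨v₁, Q₁, hv₁, -, -⟩ := cyc_of_full hFROB hMULTI hCHAR hRES unr R499.OP.form2 typc hS
    (fun ℓ _ => genRep ℓ ((β ℓ).comp s)) (fun ℓ _ => genM ℓ (B ℓ)) hsys' ℓ₀ hdvd hfull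
  obtain ⟨b, hb⟩ := spans_of_irr (N := 2 * m + 3) (s := s) hv₁ d
  refine ((dens_bdd (A := {ℓ | ℓ ≤ b}) (b := b) fun ℓ h => h).union (h1.union h2)).mono ?_
  rintro ℓ ⟨hp, hno⟩
  by_contra hcon
  apply hno
  have hℓb : b < ℓ := by
    by_contra h3
    exact hcon (Or.inl (not_lt.1 h3))
  have hirr : IrrMod ℓ d (β ℓ) := by
    by_contra h3
    exact hcon (Or.inr (Or.inl ⟨hp, h3⟩))
  have hful : FullLie ℓ (genRep ℓ ((β ℓ).comp s)) (genM ℓ (B ℓ)) := by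
    by_contra h3
    exact hcon (Or.inr (Or.inr ⟨hp, h3⟩))
  have hO := hsys' ℓ
  refine ⟨hb ℓ hℓb hp (β ℓ) (B ℓ) (hsys ℓ) hirr, ?_, ?_⟩
  · exact hOPEN ℓ (2 * m + 3) (GK K) _ hO.1 _ hO.2.1 hO.2.2.1 hO.2.2.2.1 hful
  · intro U hU w hw
    by_contra hw0
    refine nt ℓ (2 * m + 3) (by omega) (GK K) _ hO.1 _ hO.2.1 hO.2.2.1 hful
      ⟨U, ⊥, Submodule.span ℚ_[ℓ] {w}, hU, ?_, ?_⟩
    · rw [bot_lt_iff_ne_bot, Ne, Submodule.span_singleton_eq_bot]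
      exact hw0
    · intro σ hσ x hx
      obtain ⟨a, rfl⟩ := Submodule.mem_span_singleton.1 hx
      have h3 : genRep ℓ ((β ℓ).comp s) σ *ᵥ w = w := hw σ hσ
      rw [mulVec_smul, h3, sub_self]
      exact Submodule.zero_mem _

end Pool.Agent.U190.AI
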