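import Mathlib

/-!
# Irreducible groups with a simple eigenvalue span the matrix algebra, and lifting to `ℤ_ℓ`
-/

set_option autoImplicit false

open Matrix

namespace Pool.Agent.U190.AI

section field
variable {k : Type*} [Field k] {V : Type*} [AddCommGroup V] [Module k V] [FiniteDimensional k V]

/-- An irreducible algebra of endomorphisms which contains an element with a simple eigenvalue one (in
the sense that the fixed space is a line) contains all endomorphisms. -/
theorem algebra_eq_top (A : Subalgebra k (Module.End k V))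
    (hirr : ∀ W : Submodule k V, (∀ a ∈ A, ∀ w ∈ W, a w ∈ W) → W = ⊥ ∨ W = ⊤)
    (g : Module.End k V) (hg : g ∈ A) (e : V) (he : e ≠ 0) (hge : g e = e)
    (huniq : ∀ v, g v = v → ∃ c : k, v = c • e) : A = ⊤ := by
  classical
  have : Nontrivial V := ⟨⟨e, 0, he⟩⟩
  have hsub : ∀ W : Submodule A V, W = ⊥ ∨ W = ⊤ := by
    intro W
    let W' : Submodule k V :=
      { carrier := W
        add_mem' := W.add_mem
        zero_mem' := W.zero_mem
        smul_mem' := by
          intro c x hx
          have h := W.smul_mem (algebraMap k A c) hx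
          have h2 : (algebraMap k A c) • x = c • x := by
            rw [Subalgebra.smul_def]
            rfl
          rwa [h2] at h }
    have hmem : ∀ x, x ∈ W' ↔ x ∈ W := fun _ => Iff.rfl
    rcases hirr W' (fun a ha w hw => W.smul_mem ⟨a, ha⟩ hw) with h | h
    · left
      rw [Submodule.eq_bot_iff]
      intro x hx
      have : x ∈ W' := hx
      rw [h] at this
      exact (Submodule.mem_bot k).1 this
    · right
      rw [Submodule.eq_top_iff']
      intro x
      rw [← hmem, h]
      exact Submodule.mem_top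
  have : IsSimpleModule A V := by
    have : Nontrivial (Submodule A V) := (Submodule.nontrivial_iff A).2 inferInstance
    exact { toIsSimpleOrder := { eq_bot_or_eq_top := hsub } }
  have hscal : ∀ φ : Module.End A V, ∃ c : k, ∀ v, φ v = c • v := by
    intro φ
    have h1 : g (φ e) = φ e := by
      have h2 := φ.map_smul (⟨g, hg⟩ : A) e
      have h3 : (⟨g, hg⟩ : A) • e = e := hge
      rw [h3] at h2
      exact h2.symm
    obtain ⟨c, hc⟩ := huniq _ h1
    refine ⟨c, ?_⟩
    let W : Submodule A V :=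
      { carrier := {v | φ v = c • v}
        add_mem' := by
          intro x y hx hy
          show φ (x + y) = c • (x + y)
          rw [map_add, smul_add]
          exact congrArg₂ _ hx hy
        zero_mem' := by
          show φ 0 = c • (0 : V)
          rw [map_zero, smul_zero]
        smul_mem' := by
          intro a x hx
          show φ (a • x) = c • (a • x)
          have hx' : φ x = c • x := hx
          rw [φ.map_smul, hx', Subalgebra.smul_def, Subalgebra.smul_def]
          exact (a : Module.End k V).map_smul c x }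
    have hW : W = ⊤ := by
      rcases hsub W with h | h
      · exfalso
        have h2 : e ∈ W := hc
        rw [h] at h2
        exact he ((Submodule.mem_bot A).1 h2)
      · exact h
    intro v
    have h2 : v ∈ W := by
      rw [hW]
      exact Submodule.mem_top
    exact h2
  rw [eq_top_iff]
  intro f _
  let F : Module.End (Module.End A V) V :=
    { toFun := f
      map_add' := f.map_add
      map_smul' := by
        intro φ v
        obtain ⟨c, hc⟩ := hscal φ
        show f (φ v) = φ (f v)
        rw [hc, hc, f.map_smul] }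
  let b := Module.finBasis k V
  obtain ⟨r, hr⟩ := jacobson_density (R := A) F (Finset.univ.image b)
  have h1 : f = (r : Module.End k V) := by
    refine b.ext fun i => ?_
    exact hr (b i) (Finset.mem_image_of_mem _ (Finset.mem_univ i))
  rw [h1]
  exact r.2

/-- The version for monoids of matrices. -/
theorem span_eq_top {N : ℕ} (M : Submonoid (Matrix (Fin N) (Fin N) k))
    (hirr : ∀ W : Submodule k (Fin N → k), (∀ a ∈ M, ∀ w ∈ W, a *ᵥ w ∈ W) → W = ⊥ ∨ W = ⊤)
    {g : Matrix (Fin N) (Fin N) k} (hg : g ∈ M) {e : Fin N → k} (he : e ≠ 0) (hge : g *ᵥ e = e)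
    (huniq : ∀ v, g *ᵥ v = v → ∃ c : k, v = c • e) :
    Submodule.span k (M : Set (Matrix (Fin N) (Fin N) k)) = ⊤ := by
  let A : Subalgebra k (Matrix (Fin N) (Fin N) k) := Algebra.adjoin k (M : Set _)
  let T : Matrix (Fin N) (Fin N) k ≃ₐ[k] Module.End k (Fin N → k) := Matrix.toLinAlgEquiv'
  have h1 : A.map (T : Matrix (Fin N) (Fin N) k →ₐ[k] Module.End k (Fin N → k)) = ⊤ := by
    refine algebra_eq_top _ ?_ (T g) ⟨g, Algebra.subset_adjoin hg, rfl⟩ e he ?_ ?_
    · intro W hW
      refine hirr W fun a ha w hw => ?_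
      have h2 := hW (T a) ⟨a, Algebra.subset_adjoin ha, rfl⟩ w hw
      exact h2
    · exact hge
    · intro v hv
      exact huniq v hv
  have h2 : A = ⊤ := by
    rw [eq_top_iff]
    intro a _
    have h3 : T a ∈ A.map (T : Matrix (Fin N) (Fin N) k →ₐ[k] Module.End k (Fin N → k)) := by
      rw [h1]
      exact Algebra.mem_top
    obtain ⟨a', ha', h4⟩ := h3
    have h5 : a' = a := T.injective h4
    rwa [← h5]
  have h3 := Algebra.adjoin_eq_span k (M : Set (Matrix (Fin N) (Fin N) k))
  rw [Submonoid.closure_eq] at h3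
  rw [← h3]
  show Subalgebra.toSubmodule A = ⊤
  rw [h2]
  rfl

end field

section lift

/-- Matrices over `ℤ_ℓ` whose reductions span the matrices over `𝔽_ℓ` span the matrices. -/
theorem span_lift (ℓ : ℕ) [Fact ℓ.Prime] {N : ℕ} (S : Set (Matrix (Fin N) (Fin N) ℤ_[ℓ]))
    (h : Submodule.span (ZMod ℓ) ((fun A : Matrix (Fin N) (Fin N) ℤ_[ℓ] =>
      A.map (PadicInt.toZMod : ℤ_[ℓ] →+* ZMod ℓ)) '' S) = ⊤) :
    Submodule.span ℤ_[ℓ] S = ⊤ := by
  have key : ∀ B : Matrix (Fin N) (Fin N) (ZMod ℓ),
      B ∈ Submodule.span (ZMod ℓ) ((fun A : Matrix (Fin N) (Fin N) ℤ_[ℓ] =>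
        A.map (PadicInt.toZMod : ℤ_[ℓ] →+* ZMod ℓ)) '' S) →
      ∃ A ∈ Submodule.span ℤ_[ℓ] S, A.map (PadicInt.toZMod : ℤ_[ℓ] →+* ZMod ℓ) = B := by
    intro B hB
    induction hB using Submodule.span_induction with
    | mem B hB =>
      obtain ⟨A, hA, rfl⟩ := hB
      exact ⟨A, Submodule.subset_span hA, rfl⟩
    | zero => exact ⟨0, Submodule.zero_mem _, by ext; simp⟩
    | add B B' _ _ h1 h2 =>
      obtain ⟨A, hA, rfl⟩ := h1
      obtain ⟨A', hA', rfl⟩ := h2
      exact ⟨A + A', Submodule.add_mem _ hA hA', by ext; simp⟩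
    | smul c B _ h1 =>
      obtain ⟨A, hA, rfl⟩ := h1
      obtain ⟨a, ha⟩ := ZMod.ringHom_surjective (PadicInt.toZMod : ℤ_[ℓ] →+* ZMod ℓ) c
      exact ⟨a • A, Submodule.smul_mem _ _ hA, by ext; simp [ha]⟩
  have hfg : (⊤ : Submodule ℤ_[ℓ] (Matrix (Fin N) (Fin N) ℤ_[ℓ])).FG := Module.Finite.fg_top
  have hle : (⊤ : Submodule ℤ_[ℓ] (Matrix (Fin N) (Fin N) ℤ_[ℓ])) ≤ Submodule.span ℤ_[ℓ] S ⊔
      (IsLocalRing.maximalIdeal ℤ_[ℓ]) • (⊤ : Submodule ℤ_[ℓ] (Matrix (Fin N) (Fin N) ℤ_[ℓ])) := by
    intro C _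
    obtain ⟨A, hA, hAC⟩ := key (C.map (PadicInt.toZMod : ℤ_[ℓ] →+* ZMod ℓ)) (by
      rw [h]
      exact Submodule.mem_top)
    have h1 : C = A + (C - A) := by abel
    rw [h1]
    refine Submodule.add_mem_sup hA ?_
    have h2 : ∀ i j, (C - A) i j ∈ IsLocalRing.maximalIdeal ℤ_[ℓ] := by
      intro i j
      rw [← PadicInt.ker_toZMod, RingHom.mem_ker, Matrix.sub_apply, map_sub]
      have h3 := congrFun (congrFun hAC i) j
      rw [Matrix.map_apply, Matrix.map_apply] at h3
      rw [h3, sub_self]
    have h3 : C - A = ∑ i, ∑ j, (C - A) i j • Matrix.single i j (1 : ℤ_[ℓ]) := by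
      conv_lhs => rw [Matrix.matrix_eq_sum_single (C - A)]
      refine Finset.sum_congr rfl fun i _ => Finset.sum_congr rfl fun j _ => ?_
      rw [Matrix.smul_single, smul_eq_mul, mul_one]
    rw [h3]
    exact Submodule.sum_mem _ fun i _ => Submodule.sum_mem _ fun j _ =>
      Submodule.smul_mem_smul (h2 i j) Submodule.mem_top
  rw [eq_top_iff]
  exact Submodule.le_of_le_smul_of_le_jacobson_bot hfg (IsLocalRing.maximalIdeal_le_jacobson _) hle

end lift

end Pool.Agent.U190.AI
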